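import Pool.Agent.Lib.MP_05cdf2_gt.L8.Dfs
import Pool.Agent.Lib.MP_05cdf2_gt.L6.Lev
import Pool.Agent.Lib.MP_05cdf2_gt.L6.BL
import Pool.Agent.Lib.MP_05cdf2_gt.V6.VDec
import Pool.Agent.Lib.MP_05cdf2_gt.N6.NComp

/-!
# Admissibility and the meeting condition from the weights of the components
-/

namespace TorP

open TorM TorG TorL TorH TorN

variable {g : ℕ} [NeZero g] {A B : Hf g}

namespace PD

/-- a bottom carries a base point -/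
theorem bpt (P : PD A B) {D : Set (F g)} {k : F g} (h : Ard A.E P.l0 D k) (hB : B.E.S k P.k0)
    (hn : ¬ Ln B.E D) : ∃ y : P.Omg, P.lnx y.1 = D ∧ A.E.S k y.1 := by
  have hK := A.kg.kcut h.ln.1
  have hc : cv D hK ∈ fr A := (cv_mem_fr hK).2 h.ln
  have hc' : cv D hK ∉ fr B := fun hh => hn ((cv_mem_fr hK).1 hh)
  obtain ⟨D', h1, h2, h3⟩ := P.hb _ hc hc'
  have h4 : D ∈ orbK D' := by
    rw [← orbK_eq_iff]
    exact h1
  obtain ⟨m, hm, e⟩ := h4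
  have h5 : Ard A.E (m * P.l0) D (m * P.b (cv D hK)) := by
    have := ard_mul hm h2
    rwa [← e] at this
  have h6 : A.E.S k (m * P.b (cv D hK)) := h.rel_of_eq A.lf h5
  have h7 : A.E.S P.l0 (m * P.l0) := h.inn_of_eq A.lf h5
  have h8 : B.E.S P.k0 (m * P.k0) := by
    have e1 := P.hAB.2 _ _ (h.low A.lf) h6
    exact GP.trans (GP.symm hB) (GP.trans e1 ((B.S_mul hm).2 h3))
  have h9 : m ∈ P.KP := ⟨hm, h7, h8⟩
  have h10 : m * P.b (cv D hK) ∈ P.Om := ⟨_, m, hc, hc', h9, rfl⟩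
  refine ⟨⟨_, h10⟩, ?_, h6⟩
  exact ((h5.cong (GP.symm h7)).eq_compl A.lf).symm

theorem hPP61 (P : PD A B) {E : Hf g} (hAE : A ≤ E) (hEB : E ≤ B) (hJ : E.J ≤ A.J + 1) {hv : Set (Cv g)}
    (hP : (slb (nums g)).PP A hv E) (x y : P.Omg) (h1 : E.E.S x.1 y.1) (h2 : ¬ A.E.S x.1 y.1)
    (h3 : ¬ ∃ c ∈ hv, c.1 = orbK (P.lnx x.1)) :
    ∃ y' : P.Omg, E.E.S x.1 y'.1 ∧ orbK (P.lnx y'.1) ≠ orbK (P.lnx x.1) := by
  have hx := P.om_ard x.2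
  have hy := P.om_ard y.2
  have hyD : y.1 ∈ P.lnx x.1 := hx.mem_of_nrel A.lf hy h2
  have hxD : x.1 ∉ P.lnx x.1 := hx.out
  have hn : ¬ Ln E.E (P.lnx x.1) := fun hh => hxD ((hh.1.sat _ _ h1).2 hyD)
  obtain ⟨l, hl, hll⟩ := hx.adj
  obtain ⟨z, z1, z2, z3, z4, z5⟩ := comp_piece hJ hAE hx.ln hn hl
  have hCp : (slb (nums g)).Cp A E z := ⟨z1, z2, fun c hc => Finset.mem_union.2 (z4 c hc)⟩
  have hW := (hP.2 z hCp).resolve_left z3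
  have hex : ∃ c ∈ fr A \ fr z, c.1 ≠ orbK (P.lnx x.1) := by
    rcases hW with hW | ⟨c, hc, hcv⟩
    · obtain ⟨c, hc, c', hc', hne⟩ := Finset.one_lt_card.1 hW
      by_cases e : c.1 = orbK (P.lnx x.1)
      · refine ⟨c', hc', fun e' => hne (Subtype.ext (e.trans e'.symm))⟩
      · exact ⟨c, hc, e⟩
    · exact ⟨c, hc, fun e => h3 ⟨c, hcv, e⟩⟩
  obtain ⟨c, hc, hne⟩ := hex
  rw [Finset.mem_sdiff] at hc
  obtain ⟨D', hD', e'⟩ := mem_fr.1 hc.1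
  have hD'z : ¬ Ln z.E D' := fun hh => hc.2 (mem_fr.2 ⟨D', hh, e'⟩)
  have hKB : KB A.E E.E x.1 l D' := by
    by_contra hh
    exact hD'z ((z5 D').2 (Or.inl ⟨hD', hh⟩))
  obtain ⟨-, h, k, l', a1, a2, a3, a4⟩ := hKB
  have hz : ph h⁻¹ = 0 := by rw [ph_inv, a1, neg_zero]
  have b1 : Adj A.E (tr h⁻¹ D') (h⁻¹ * k) (h⁻¹ * l') := A.kg.adj_tr hz a2
  have b2 : E.E.S (h⁻¹ * k) x.1 := by
    have := (E.S_mul hz).2 a3
    rwa [inv_mul_cancel_left] at this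
  have b3 : A.E.S (h⁻¹ * l') l := by
    have := (A.S_mul hz).2 a4
    rwa [inv_mul_cancel_left] at this
  have b4 : Ard A.E P.l0 (tr h⁻¹ D') (h⁻¹ * k) := ⟨(A.kg.ln_tr hz).2 hD', _, b1, GP.trans b3 hll⟩
  have hor : orbK (tr h⁻¹ D') = c.1 := by
    rw [e']
    exact orbK_eq_of_mem ⟨h⁻¹, hz, rfl⟩
  have hneD : tr h⁻¹ D' ≠ P.lnx x.1 := fun e => hne (by rw [← hor, e])
  have hxD1 : x.1 ∈ tr h⁻¹ D' := b4.sub_of_ne A.lf hx hneD hxD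
  have hk1 := b4.low A.lf
  have c1 : B.E.S (h⁻¹ * k) x.1 := hEB.2 _ _ (hAE.1 hk1) b2
  have hnB : ¬ Ln B.E (tr h⁻¹ D') := fun hh => b4.out ((hh.1.sat _ _ c1).2 hxD1)
  obtain ⟨y', d1, d2⟩ := P.bpt b4 (GP.trans c1 (P.om_B x.2)) hnB
  refine ⟨y', ?_, ?_⟩
  · exact GP.trans (GP.symm b2) (hAE.2 _ _ hk1 d2)
  · rw [d1, hor]
    exact hne

theorem meet_of61 {E : Hf g} (hAE : A ≤ E) (hJ : E.J ≤ A.J + 1) {hv : Set (Cv g)}
    (hP : (slb (nums g)).PP A hv E) : E.J = A.J ∨ (E.J = A.J + 1 ∧ TorW.Meet A E) := by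
  by_cases h0 : E.J = A.J
  · exact Or.inl h0
  · have hJA : A.J ≤ E.J := Hf.J_le hAE
    have h1 : E.J = A.J + 1 := by omega
    refine Or.inr ⟨h1, ?_⟩
    by_contra hm
    obtain ⟨z, z1, z2, z3, z4, z5⟩ := zlev hAE h1 (fun x y hx hy hh => hm ⟨x, y, hx, hy, hh⟩)
    have hCp : (slb (nums g)).Cp A E z := ⟨z1, z2, fun c hc => Finset.mem_union.2 (z5 c hc)⟩
    have hW := (hP.2 z hCp).resolve_left z3
    obtain ⟨c, hc⟩ := hW.ne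
    have hc' := Finset.mem_sdiff.1 hc
    exact hc'.2 (z4 c hc'.1)

end PD

end TorP
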