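import Pool.Agent.Lib.MP_05cdf2_gt.L8.Ex
import Pool.Agent.Lib.MP_05cdf2_gt.V6.VDec
import Pool.Agent.Lib.MP_05cdf2_gt.H.WBd

/-! MP_05cdf2_gt, stream H (helper49): the classes of the chords of a piece.

`cE E x y` = the evaluation at the chord in the dual of `ZZ A E`; `CL` for the `AD` structure; the complexes of systems. -/

set_option autoImplicit false
set_option linter.unusedSectionVars false
set_option linter.unusedVariables false

namespace TorP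
open TorM TorG TorL TorH TorN TorA TorW Module

variable {g : ℕ} [NeZero g]

namespace PD

variable {A B : Hf g} (P : PD A B)

/-- chords of the piece related by `E` -/
def Wp (E : Hf g) (x y : F g) : Prop := x ∈ P.Om ∧ y ∈ P.Om ∧ E.E.S x y

open Classical in
/-- classes -/
noncomputable def cE (E C : Hf g) (x y : P.Omg) : spW A C (P.Wp E) :=
  if h : E.E.S x.1 y.1 then ⟨evz A C x.1 y.1, Submodule.subset_span ⟨x.1, y.1, ⟨x.2, y.2, h⟩, rfl⟩⟩ else 0

theorem cE_val {E C : Hf g} {x y : P.Omg} (h : E.E.S x.1 y.1) : (P.cE E C x y).1 = evz A C x.1 y.1 := by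
  unfold cE
  rw [dif_pos h]

theorem cE_cl (E C : Hf g) : Cl P.KP (fun x y : P.Omg => E.E.S x.1 y.1) (P.cE E C) where
  add {x y z} hxy hyz := by
    apply Subtype.ext
    rw [Submodule.coe_add, P.cE_val hxy, P.cE_val hyz, P.cE_val (GP.trans hxy hyz)]
    refine LinearMap.ext fun f => ?_
    exact cc_add f.2.1 x.1 y.1 z.1
  smul k {x y} hxy := by
    apply Subtype.ext
    rw [P.cE_val hxy, P.cE_val (x := k • x) (y := k • y) ((E.S_mul k.2.1).2 hxy)]
    refine LinearMap.ext fun f => ?_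
    exact cc_K f.2.1 k.2.1 x.1 y.1

theorem cE_zero {E C : Hf g} {x y : P.Omg} (h : A.E.S x.1 y.1) : P.cE E C x y = 0 := by
  by_cases hE : E.E.S x.1 y.1
  · apply Subtype.ext
    rw [P.cE_val hE]
    refine LinearMap.ext fun f => ?_
    exact f.2.2.1 _ _ (P.om_low x.2) h
  · unfold cE
    rw [dif_neg hE]

/-- the period of a cochain is a homomorphism -/
theorem per_pow {f : F g → F g → ℚ} (hf : f ∈ CC g) {k : F g} (hk : ph k = 0) (n : ℤ) :
    f 1 (k ^ n * 1) = n * f 1 (k * 1) := by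
  induction n using Int.induction_on with
  | zero => simp [cc_self hf]
  | succ n ih =>
    rw [add_comm, zpow_one_add, per_mul hf hk, ih]
    push_cast
    ring
  | pred n ih =>
    have h1 : k ^ (-(n : ℤ)) = k * k ^ (-(n : ℤ) - 1) := by
      rw [← zpow_one_add]
      congr 1
      ring
    rw [h1, per_mul hf hk] at ih
    push_cast at ih ⊢
    linarith

theorem face {E : Hf g} (hAE : A ≤ E) (hEB : E ≤ B) {X : Finset (Arc P.KP P.Omg)}
    (hX : Sy (CE fun x y : P.Omg => E.E.S x.1 y.1) X) (hs0 : P.s0 ⊆ X)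
    (hf : Fi (fun x y : P.Omg => E.E.S x.1 y.1) X) : Face X (P.cE E E) := by
  intro w N k hN hw h0 h1
  rw [h0]
  have hbs : ∀ y, arc P.KP y (P.bs y) ∈ X := fun y => hs0 (P.mem_s0.2 ⟨y, rfl⟩)
  have hbp : ∀ y, arc P.KP y (P.bp y) ∈ X := fun y => hs0 (P.mem_s0.2 ⟨P.bp y, by rw [P.bs_bp, arc_comm]⟩)
  have halt := face_alt (ι := fun x : P.Omg => x.1) P.val_mono (fun k x => rfl) E.lf (fun k hk => E.inv k (P.mem_KP.1 hk).1)
    E.S_zeta (A := fun x y : P.Omg => A.E.S x.1 y.1) (P.neE A) (fun {x y} h => hAE.2 _ _ (P.om_low x.2) h)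
    P.bs_ne P.bp_ne P.bs_first P.bp_last P.bs_A (fun u x h => P.hM hAE hEB u x h) (CE.co hX)
    (fun x y h => CE.isIn hX h _ _ rfl) (fun x y h => hf x y h) hbs hbp hN hw h0 h1
  by_cases hE : E.E.S (w 0).1 (k • w 0).1
  · apply Subtype.ext
    rw [P.cE_val hE]
    refine LinearMap.ext fun f => ?_
    show f.1 (w 0).1 ((k : F g) * (w 0).1) = 0
    have hk : ph (k : F g) = 0 := k.2.1
    have hf' : f.1 ∈ CC g := f.2.1
    rcases halt with h | ⟨i, h⟩ | ⟨l, hl, h⟩ | ⟨u, n, m, hm, hu, h⟩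
    · rw [h, Subgroup.coe_one, one_mul, cc_self hf']
    · rw [cc_per hf' hk _ (w i).1]
      exact f.2.2.1 _ _ (P.om_low (w i).2) h
    · rw [cc_per hf' hk _ l]
      exact f.2.2.2 _ _ hl h
    · have e1 := per_pow hf' hk m
      have e2 := per_pow hf' (k := u * zeta g * u⁻¹) hu.1 n
      have e3 : f.1 1 (u * zeta g * u⁻¹ * 1) = 0 := by
        rw [cc_per hf' hu.1 1 u]
        have : u * zeta g * u⁻¹ * u = u * zeta g := by group
        rw [this, cc_zeta hf']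
      rw [h, e1, e3, mul_zero] at e2
      rw [cc_per hf' hk _ 1]
      have hm' : (m : ℚ) ≠ 0 := by exact_mod_cast hm
      exact (mul_eq_zero.1 e2).resolve_left hm'
  · unfold cE
    rw [dif_neg hE]

theorem cl_E {E : Hf g} (hAE : A ≤ E) (hEB : E ≤ B) (hv : Set (Cv g)) : CL (P.ad E hAE hv) (P.cE E E) where
  cl := P.cE_cl E E
  zero x y h := P.cE_zero h
  face X hX hs0 hf := P.face hAE hEB hX hs0 hf

theorem nocr_aux {α : Type} [LinearOrder α] {x b z w : α} (hb : b ≠ x) (h1 : z ≠ x → z = b ∨ Cyc x b z)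
    (h2 : w ≠ x → w = b ∨ Cyc x b w) : ¬ Cr x b z w := by
  intro h
  by_cases hz : z = x
  · subst hz
    exact (by unfold Cr Cyc at h; grind : False)
  · by_cases hw : w = x
    · subst hw
      exact (by unfold Cr Cyc at h; grind : False)
    · have h1' := h1 hz
      have h2' := h2 hw
      unfold Cr Cyc at *
      grind

/-- boundary arcs cross nothing -/
theorem bs_nocr (x z w : P.Omg) : ¬ Cr x (P.bs x) z w :=
  nocr_aux (P.bs_ne x) (P.bs_first x z) (P.bs_first x w)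

theorem s0_co {a b : Arc P.KP P.Omg} (ha : a ∈ P.s0) : Co a b := by
  obtain ⟨x, rfl⟩ := P.mem_s0.1 ha
  rw [co_iff]
  intro z w _
  exact P.bs_nocr x z w

theorem s0_in {E : Hf g} (hAE : A ≤ E) {a : Arc P.KP P.Omg} (ha : a ∈ P.s0) :
    In (fun x y : P.Omg => E.E.S x.1 y.1) a := by
  obtain ⟨x, rfl⟩ := P.mem_s0.1 ha
  rw [in_iff (P.neE E)]
  exact hAE.2 _ _ (P.om_low x.2) (P.bs_A x)

theorem s0_sy {E : Hf g} (hAE : A ≤ E) : Sy (CE fun x y : P.Omg => E.E.S x.1 y.1) P.s0 :=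
  sy_ce (fun _ ha _ _ => P.s0_co ha) fun _ ha => P.s0_in hAE ha

/-- the end points of an arc -/
noncomputable def rp (a : Arc P.KP P.Omg) : F g × F g := ((rep a).1.1, (rep a).2.1)

/-- systems -/
def Q (hv : Set (Cv g)) (ρ : Finset (Arc P.KP P.Omg)) : Prop :=
  Sy Co (P.s0 ∪ ρ) ∧ (∀ a ∈ ρ, (P.ad B P.hAB hv).al a ∧ a ∉ P.s0) ∧
    TorH.Ind (fun a => evZ A B (P.rp a)) ⊥ ρ

theorem al_B {E : Hf g} (hAE : A ≤ E) {hv : Set (Cv g)} {a : Arc P.KP P.Omg} :
    (P.ad E hAE hv).al a ↔ (P.ad B P.hAB hv).al a ∧ In (fun x y : P.Omg => E.E.S x.1 y.1) a := by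
  constructor
  · intro h
    refine ⟨fun x y hxy => ?_, fun x y hxy => (h x y hxy).1⟩
    obtain ⟨h1, h2, h3⟩ := h x y hxy
    exact ⟨GP.trans (P.om_B x.2) (GP.symm (P.om_B y.2)), h2, h3⟩
  · rintro ⟨h1, h2⟩ x y hxy
    obtain ⟨-, h3, h4⟩ := h1 x y hxy
    exact ⟨h2 x y hxy, h3, h4⟩

theorem in_rp {E : Hf g} {a : Arc P.KP P.Omg} :
    In (fun x y : P.Omg => E.E.S x.1 y.1) a ↔ E.E.S (P.rp a).1 (P.rp a).2 := by
  conv_lhs => rw [← arc_rep a]
  exact in_iff (P.neE E)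

/-- restriction of functionals -/
noncomputable def res {E : Hf g} (hEB : E ≤ B) : Dual ℚ (ZZ A B) →ₗ[ℚ] Dual ℚ (ZZ A E) :=
  (Submodule.inclusion (ZZ_mono (le_refl A) hEB)).dualMap

theorem res_evz {E : Hf g} (hEB : E ≤ B) (x y : F g) : res (A := A) hEB (evz A B x y) = evz A E x y := rfl

theorem res_mem {E : Hf g} (hEB : E ≤ B) : ∀ v ∈ spW A B (P.Wp E), res hEB v ∈ spW A E (P.Wp E) := by
  intro v hv
  have h : spW A B (P.Wp E) ≤ (spW A E (P.Wp E)).comap (res hEB) := by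
    refine Submodule.span_le.2 ?_
    rintro _ ⟨x, y, h1, rfl⟩
    show res hEB (evz A B x y) ∈ spW A E (P.Wp E)
    rw [res_evz]
    exact Submodule.subset_span ⟨x, y, h1, rfl⟩
  exact h hv

/-- the projection -/
noncomputable def pi {E : Hf g} (hEB : E ≤ B) : spW A B (P.Wp E) →ₗ[ℚ] spW A E (P.Wp E) :=
  (res hEB).restrict (P.res_mem hEB)

theorem pi_c {E : Hf g} (hEB : E ≤ B) (x y : P.Omg) : P.pi hEB (P.cE E B x y) = P.cE E E x y := by
  by_cases h : E.E.S x.1 y.1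
  · apply Subtype.ext
    show res hEB (P.cE E B x y).1 = (P.cE E E x y).1
    rw [P.cE_val h, P.cE_val h, res_evz]
  · unfold cE
    rw [dif_neg h, dif_neg h, map_zero]

theorem hspan {E : Hf g} :
    Submodule.span ℚ {v | ∃ x y : P.Omg, E.E.S x.1 y.1 ∧ v = P.cE E E x y} = ⊤ := by
  rw [eq_top_iff]
  have h := Submodule.span_span_coe_preimage (R := ℚ) (s := {v | ∃ x y, P.Wp E x y ∧ v = evz A E x y})
  refine h.symm.le.trans (Submodule.span_mono ?_)
  rintro ⟨v, hv⟩ ⟨x, y, h1, h2⟩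
  refine ⟨⟨x, h1.1⟩, ⟨y, h1.2.1⟩, h1.2.2, Subtype.ext ?_⟩
  rw [P.cE_val (x := ⟨x, h1.1⟩) (y := ⟨y, h1.2.1⟩) h1.2.2]
  exact h2

/-- independence in the span and in the dual -/
theorem ind_iff {E : Hf g} {ρ : Finset (Arc P.KP P.Omg)}
    (hρ : ∀ a ∈ ρ, In (fun x y : P.Omg => E.E.S x.1 y.1) a) :
    TorH.Ind (ac (P.cE E B)) (Sn (ac (P.cE E B)) P.s0) ρ ↔ TorH.Ind (fun a => evZ A B (P.rp a)) ⊥ ρ := by
  have h0 : Sn (ac (P.cE E B)) P.s0 = ⊥ := by
    rw [eq_bot_iff]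
    refine sp_le bot_le fun a ha => ?_
    have h1 : A.E.S (rep a).1.1 (rep a).2.1 := by
      have h2 := P.s0_in (le_refl A) ha
      exact h2 _ _ (arc_rep a)
    rw [Submodule.mem_bot]
    exact P.cE_zero h1
  have hval : ∀ a ∈ ρ, (ac (P.cE E B) a).1 = evZ A B (P.rp a) := by
    intro a ha
    exact P.cE_val (hρ a ha _ _ (arc_rep a))
  rw [h0]
  refine forall₂_congr fun a ha => not_congr ?_
  have himg : (spW A B (P.Wp E)).subtype '' ((ac (P.cE E B)) '' ((ρ.erase a : Finset _) : Set (Arc P.KP P.Omg))) =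
      (fun a => evZ A B (P.rp a)) '' ((ρ.erase a : Finset _) : Set (Arc P.KP P.Omg)) := by
    rw [Set.image_image]
    refine Set.image_congr fun b hb => ?_
    exact hval b (Finset.mem_of_mem_erase hb)
  unfold sp
  show ac (P.cE E B) a ∈ _ ↔ evZ A B (P.rp a) ∈ _
  rw [bot_sup_eq, bot_sup_eq, ← himg, ← Submodule.map_span, ← hval a ha]
  constructor
  · intro h
    exact Submodule.mem_map.2 ⟨_, h, rfl⟩
  · intro h
    obtain ⟨y, hy, e⟩ := Submodule.mem_map.1 h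
    have e' : y = ac (P.cE E B) a := Subtype.ext e
    rwa [← e']

/-- the complexes of systems -/
theorem ac_E {E : Hf g} (hAE : A ≤ E) (hEB : E ≤ B) (hv : Set (Cv g))
    {σ : Finset (Arc P.KP P.Omg)} (hσ : Sy (CE fun x y : P.Omg => E.E.S x.1 y.1) σ)
    (hσf : Fi (fun x y : P.Omg => E.E.S x.1 y.1) σ) (hadm : Adm (P.ad E hAE hv) P.s0) :
    Ac (Po {ρ : Finset (Arc P.KP P.Omg) | ρ.Nonempty ∧ P.Q hv ρ ∧ ∀ a ∈ ρ, E.E.S (P.rp a).1 (P.rp a).2})
      (finrank ℚ (spW A E (P.Wp E))) := by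
  obtain ⟨Qf, hQ⟩ := P.fin_orb
  have hwf := sys_wf (ntF P.KP) (P.neE E) hσ hσf hQ
  have h := XH2 (M := P.ad E hAE hv) (P.pi hEB) (P.pi_c hEB) (P.cl_E hAE hEB hv) P.hspan hσ hσf hwf P.s0
    (P.s0_sy hAE) (Finset.Subset.refl _) hadm
  have h0 : Sn (ac (P.cE E E)) P.s0 = ⊥ := by
    rw [eq_bot_iff]
    refine sp_le bot_le fun a ha => ?_
    have h1 : A.E.S (rep a).1.1 (rep a).2.1 := by
      have h2 := P.s0_in (le_refl A) ha
      exact h2 _ _ (arc_rep a)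
    rw [Submodule.mem_bot]
    exact P.cE_zero h1
  have hfr : finrank ℚ (spW A E (P.Wp E) ⧸ Sn (ac (P.cE E E)) P.s0) = finrank ℚ (spW A E (P.Wp E)) := by
    rw [h0]
    exact (Submodule.quotEquivOfEqBot ⊥ rfl).finrank_eq
  rw [hfr] at h
  have hset : {ρ : Finset (Arc P.KP P.Omg) | ρ.Nonempty ∧ P.Q hv ρ ∧ ∀ a ∈ ρ, E.E.S (P.rp a).1 (P.rp a).2} =
      {ρ | ρ ∈ As (CE (P.ad E hAE hv).E) (P.ad E hAE hv).al P.s0 ∧
        TorH.Ind (ac (P.cE E B)) (Sn (ac (P.cE E B)) P.s0) ρ} := by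
    ext ρ
    constructor
    · rintro ⟨h1, ⟨h2, h3, h4⟩, h5⟩
      have h6 : ∀ a ∈ ρ, In (fun x y : P.Omg => E.E.S x.1 y.1) a := fun a ha => P.in_rp.2 (h5 a ha)
      refine ⟨⟨h1, sy_ce h2 fun a ha => ?_, fun a ha => ⟨(P.al_B hAE).2 ⟨(h3 a ha).1, h6 a ha⟩, (h3 a ha).2⟩⟩,
        (P.ind_iff h6).2 h4⟩
      rcases Finset.mem_union.1 ha with h7 | h7
      · exact P.s0_in hAE h7
      · exact h6 a h7
    · rintro ⟨⟨h1, h2, h3⟩, h4⟩
      have h6 : ∀ a ∈ ρ, In (fun x y : P.Omg => E.E.S x.1 y.1) a := fun a ha =>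
        CE.isIn h2 (Finset.mem_union_right _ ha)
      exact ⟨h1, ⟨CE.co h2, fun a ha => ⟨((P.al_B hAE).1 (h3 a ha).1).1, (h3 a ha).2⟩, (P.ind_iff h6).1 h4⟩,
        fun a ha => P.in_rp.1 (h6 a ha)⟩
  rw [hset]
  exact h

end PD

end TorP
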