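import Pool.Agent.Lib.MP_05cdf2_gt.L8.Wd
import Pool.Agent.Lib.MP_05cdf2_gt.H.YAdm
import Pool.Agent.Lib.MP_05cdf2_gt.H.WFace

/-! MP_05cdf2_gt, stream H (helper49): the chord space of a piece.

`PD A B`: a piece of `B - A` and base points `b c` of its bottoms. `KP` = stabiliser, `Om` = base points of the bottoms.
`lnx x` = the line of `x`, `gx x` = the generator of its stabiliser (towards the successor). `AD` structure `ad`. -/

set_option autoImplicit false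
set_option linter.unusedSectionVars false

namespace TorP
open TorM TorG TorL TorH

variable {g : ℕ} [NeZero g]

/-- a piece of `B - A` with base points -/
structure PD (A B : Hf g) where
  k0 : F g
  l0 : F g
  D0 : Set (F g)
  hAB : A ≤ B
  hD0 : Ln A.E D0
  h0 : Adj A.E D0 k0 l0
  hn : ¬ Ln B.E D0
  b : Cv g → F g
  hb : ∀ c, c ∈ fr A → c ∉ fr B → ∃ D, c.1 = orbK D ∧ Ard A.E l0 D (b c) ∧ B.E.S (b c) k0

variable {A B : Hf g} (P : PD A B)

namespace PD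

theorem k0P : P.k0 ∈ A.E.P := (ln_adj_mem A.lf P.hD0 P.h0).1
theorem l0P : P.l0 ∉ A.E.P := (ln_adj_mem A.lf P.hD0 P.h0).2

/-- the stabiliser of the piece -/
def KP : Subgroup (F g) where
  carrier := {k | ph k = 0 ∧ A.E.S P.l0 (k * P.l0) ∧ B.E.S P.k0 (k * P.k0)}
  one_mem' := ⟨ph_one, by rw [one_mul]; exact GP.refl _, by rw [one_mul]; exact GP.refl _⟩
  mul_mem' := by
    rintro a b ⟨a1, a2, a3⟩ ⟨b1, b2, b3⟩
    refine ⟨by rw [ph_mul, a1, b1, add_zero], ?_, ?_⟩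
    · rw [mul_assoc]
      exact GP.trans a2 ((A.S_mul a1).2 b2)
    · rw [mul_assoc]
      exact GP.trans a3 ((B.S_mul a1).2 b3)
  inv_mem' := by
    rintro a ⟨a1, a2, a3⟩
    have e : ph a⁻¹ = 0 := by rw [ph_inv, a1, neg_zero]
    refine ⟨e, ?_, ?_⟩
    · have := (A.S_mul e).2 a2
      rw [inv_mul_cancel_left] at this
      exact GP.symm this
    · have := (B.S_mul e).2 a3
      rw [inv_mul_cancel_left] at this
      exact GP.symm this

theorem mem_KP {k : F g} : k ∈ P.KP ↔ ph k = 0 ∧ A.E.S P.l0 (k * P.l0) ∧ B.E.S P.k0 (k * P.k0) := Iff.rfl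

/-- base points of the bottoms -/
def Om : Set (F g) := {x | ∃ c k, c ∈ fr A ∧ c ∉ fr B ∧ k ∈ P.KP ∧ x = k * P.b c}

/-- the line of a base point -/
def lnx (x : F g) : Set (F g) := (gap A.E P.l0 x)ᶜ

/-- the generator of the line of `x`, positive outside -/
noncomputable def gx (x : F g) : F g := gn (P.lnx x)ᶜ

theorem ard_mul {l0 : F g} {D : Set (F g)} {x k : F g} (hk : ph k = 0) (h : Ard A.E l0 D x) :
    Ard A.E (k * l0) (tr k D) (k * x) := by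
  obtain ⟨l, h1, h2⟩ := h.adj
  exact ⟨(A.kg.ln_tr hk).2 h.ln, k * l, A.kg.adj_tr hk h1, (A.S_mul hk).2 h2⟩

theorem om_spec {x : F g} (hx : x ∈ P.Om) : Ard A.E P.l0 (P.lnx x) x ∧ B.E.S x P.k0 ∧
    ∃ c, c ∈ fr A ∧ c ∉ fr B ∧ c.1 = orbK (P.lnx x) := by
  obtain ⟨c, k, hc, hc', hk, rfl⟩ := hx
  obtain ⟨D, h1, h2, h3⟩ := P.hb c hc hc'
  have h4 : Ard A.E P.l0 (tr k D) (k * P.b c) := (ard_mul hk.1 h2).cong (GP.symm hk.2.1)
  have h5 : P.lnx (k * P.b c) = tr k D := (h4.eq_compl A.lf).symm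
  rw [h5]
  refine ⟨h4, GP.trans ((B.S_mul hk.1).2 h3) (GP.symm hk.2.2), c, hc, hc', ?_⟩
  rw [h1]
  exact (orbK_eq_of_mem ⟨k, hk.1, rfl⟩).symm

theorem om_ard {x : F g} (hx : x ∈ P.Om) : Ard A.E P.l0 (P.lnx x) x := (P.om_spec hx).1
theorem om_B {x : F g} (hx : x ∈ P.Om) : B.E.S x P.k0 := (P.om_spec hx).2.1
theorem om_low {x : F g} (hx : x ∈ P.Om) : x ∈ A.E.P := (P.om_ard hx).low A.lf
theorem om_w {x : F g} (hx : x ∈ P.Om) : WCut (P.lnx x) := A.kg.wcut (P.om_ard hx).ln.1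
theorem om_out {x : F g} (hx : x ∈ P.Om) : x ∈ (P.lnx x)ᶜ := (P.om_ard hx).out

theorem om_mul {k x : F g} (hk : k ∈ P.KP) (hx : x ∈ P.Om) : k * x ∈ P.Om := by
  obtain ⟨c, k', hc, hc', hk', rfl⟩ := hx
  exact ⟨c, k * k', hc, hc', P.KP.mul_mem hk hk', (mul_assoc _ _ _).symm⟩

theorem lnx_mul {k x : F g} (hk : k ∈ P.KP) (hx : x ∈ P.Om) : P.lnx (k * x) = tr k (P.lnx x) :=
  (((ard_mul hk.1 (P.om_ard hx)).cong (GP.symm hk.2.1)).eq_compl A.lf).symm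

theorem gx_mul {k x : F g} (hk : k ∈ P.KP) (hx : x ∈ P.Om) : P.gx (k * x) = k * P.gx x * k⁻¹ := by
  unfold gx
  rw [P.lnx_mul hk hx, ← tr_compl, gn_tr (P.om_w hx).compl]

theorem gx_st {x : F g} (hx : x ∈ P.Om) : P.gx x ∈ stD (P.lnx x) := by
  have := (gn_spec (P.om_w hx).compl).mem
  rwa [stD_compl] at this

/-- an element which stabilises the line of a base point is in `KP` -/
theorem st_mem {x h : F g} (hx : x ∈ P.Om) (hh : h ∈ stD (P.lnx x)) : h ∈ P.KP := by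
  have h1 := P.om_ard hx
  have h2 : ph h = 0 := (A.kg.kcut h1.ln.1).st hh
  have h3 := ard_mul h2 h1
  rw [mem_stD.1 hh] at h3
  refine ⟨h2, h1.inn_of_eq A.lf h3, ?_⟩
  have h4 : A.E.S x (h * x) := h1.rel_of_eq A.lf h3
  have h5 := P.hAB.2 _ _ (P.om_low hx) h4
  exact GP.trans (GP.symm (P.om_B hx)) (GP.trans h5 ((B.S_mul h2).2 (P.om_B hx)))

theorem gx_mem {x : F g} (hx : x ∈ P.Om) : P.gx x ∈ P.KP := P.st_mem hx (P.gx_st hx)

theorem lnx_gx {x : F g} (hx : x ∈ P.Om) : P.lnx (P.gx x * x) = P.lnx x := by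
  rw [P.lnx_mul (P.gx_mem hx) hx]
  exact P.gx_st hx

theorem gx_gx {x : F g} (hx : x ∈ P.Om) : P.gx (P.gx x * x) = P.gx x := by
  unfold gx
  rw [show gn (P.lnx x)ᶜ * x = P.gx x * x from rfl, P.lnx_gx hx]

theorem gx_inv {x : F g} (hx : x ∈ P.Om) : P.gx ((P.gx x)⁻¹ * x) = P.gx x := by
  have h1 := P.KP.inv_mem (P.gx_mem hx)
  rw [P.gx_mul h1 hx]
  group

/-- base points on the same line -/
theorem same_line {x v : F g} (hx : x ∈ P.Om) (hv : v ∈ P.Om) (h : P.lnx x = P.lnx v) :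
    ∃ n : ℤ, v = P.gx x ^ n * x := by
  obtain ⟨c, k, hc, hc', hk, rfl⟩ := hx
  obtain ⟨c2, k2, hc2, hc2', hk2, rfl⟩ := hv
  have hbm : ∀ c, c ∈ fr A → c ∉ fr B → P.b c ∈ P.Om := fun c h1 h2 => ⟨c, 1, h1, h2, P.KP.one_mem, (one_mul _).symm⟩
  have m1 := hbm c hc hc'
  have m2 := hbm c2 hc2 hc2'
  have e1 := P.lnx_mul hk m1
  have e2 := P.lnx_mul hk2 m2
  have ec : ∀ c, c ∈ fr A → c ∉ fr B → c.1 = orbK (P.lnx (P.b c)) := by
    intro c h1 h2
    obtain ⟨D, h3, h4, -⟩ := P.hb c h1 h2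
    rw [h3, h4.eq_compl A.lf]
    rfl
  have e3 : c = c2 := by
    apply Subtype.ext
    rw [ec c hc hc', ec c2 hc2 hc2', ← orbK_eq_of_mem (A := tr k (P.lnx (P.b c))) ⟨k, hk.1, rfl⟩,
      ← orbK_eq_of_mem (A := tr k2 (P.lnx (P.b c2))) ⟨k2, hk2.1, rfl⟩, ← e1, ← e2, h]
  subst e3
  have h3 : k⁻¹ * k2 ∈ stD (P.lnx (P.b c)) := by
    rw [mem_stD, ← tr_tr, ← e2, ← h, e1, tr_tr, inv_mul_cancel, tr_one]
  have h4 : k⁻¹ * k2 ∈ stD (P.lnx (P.b c))ᶜ := by rwa [stD_compl]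
  obtain ⟨n, hn⟩ := (gn_spec (P.om_w m1).compl).pow _ h4
  refine ⟨n, ?_⟩
  rw [P.gx_mul hk m1, conj_zpow]
  have h5 : P.gx (P.b c) ^ n = k⁻¹ * k2 := hn.symm
  rw [h5]
  group

/-- the dichotomy for the other base points -/
theorem dich {x v : F g} (hx : x ∈ P.Om) (hv : v ∈ P.Om) :
    v ∉ (P.lnx x)ᶜ ∨ ∃ n : ℤ, v = gn (P.lnx x)ᶜ ^ n * x := by
  by_cases h : P.lnx x = P.lnx v
  · exact Or.inr (P.same_line hx hv h)
  · left
    intro h2
    exact h2 ((P.om_ard hx).sub_of_ne A.lf (P.om_ard hv) h (P.om_out hv))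

/-! the chord space -/

/-- the base points -/
abbrev Omg : Type := {x : F g // x ∈ P.Om}

noncomputable instance csP : CS P.KP P.Omg where
  smul k x := ⟨(k : F g) * x.1, P.om_mul k.2 x.2⟩
  one_smul x := Subtype.ext (one_mul _)
  mul_smul k l x := Subtype.ext (mul_assoc _ _ _)
  cyc k x y z := cyc_mul (k : F g) x.1 y.1 z.1
  fin a b c d := (csF P.KP).fin a.1 b.1 c.1 d.1
  free k x h := (csF P.KP).free k x.1 (congrArg Subtype.val h)

theorem smul_val (k : P.KP) (x : P.Omg) : (k • x).1 = (k : F g) * x.1 := rfl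

theorem val_mono : StrictMono (fun x : P.Omg => x.1) := fun _ _ h => h

/-- the successor -/
noncomputable def bs (x : P.Omg) : P.Omg := ⟨P.gx x.1 * x.1, P.om_mul (P.gx_mem x.2) x.2⟩

/-- the predecessor -/
noncomputable def bp (x : P.Omg) : P.Omg := ⟨(P.gx x.1)⁻¹ * x.1, P.om_mul (P.KP.inv_mem (P.gx_mem x.2)) x.2⟩

theorem bs_eq (x : P.Omg) : P.bs x = (⟨P.gx x.1, P.gx_mem x.2⟩ : P.KP) • x := rfl

theorem gx_ne {x : F g} (hx : x ∈ P.Om) : P.gx x * x ≠ x := by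
  have h := (gn_spec (P.om_w hx).compl).pos x (P.om_out hx)
  exact fun e => h.2.2.1 e.symm

theorem bs_ne (x : P.Omg) : P.bs x ≠ x := fun h => P.gx_ne x.2 (congrArg Subtype.val h)

theorem bs_bp (x : P.Omg) : P.bs (P.bp x) = x := by
  apply Subtype.ext
  show P.gx ((P.gx x.1)⁻¹ * x.1) * ((P.gx x.1)⁻¹ * x.1) = x.1
  rw [P.gx_inv x.2, mul_inv_cancel_left]

theorem bp_ne (x : P.Omg) : P.bp x ≠ x := by
  intro h
  have := P.bs_bp x
  rw [h] at this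
  exact P.bs_ne x this

theorem bs_first (y v : P.Omg) (hne : v ≠ y) : v = P.bs y ∨ Cyc y (P.bs y) v := by
  have h := gen_first (P.om_w y.2).compl (P.om_out y.2) (P.dich y.2 v.2) (fun e => hne (Subtype.ext e))
  rcases h with h | h
  · exact Or.inl (Subtype.ext h)
  · exact Or.inr h

theorem bp_last (y v : P.Omg) (hne : v ≠ y) : v = P.bp y ∨ Cyc y v (P.bp y) := by
  have h := gen_last (P.om_w y.2).compl (P.om_out y.2) (P.dich y.2 v.2) (fun e => hne (Subtype.ext e))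
  rcases h with h | h
  · exact Or.inl (Subtype.ext h)
  · exact Or.inr h

theorem bs_A (y : P.Omg) : A.E.S y.1 (P.bs y).1 := by
  have h1 := P.om_ard y.2
  have h2 := P.om_ard (P.bs y).2
  have h3 : P.lnx (P.bs y).1 = P.lnx y.1 := P.lnx_gx y.2
  rw [h3] at h2
  exact h1.rel_of_eq A.lf h2

theorem bp_A (y : P.Omg) : A.E.S y.1 (P.bp y).1 := by
  have := P.bs_A (P.bp y)
  rw [P.bs_bp] at this
  exact GP.symm this

theorem bs_smul (k : P.KP) (y : P.Omg) : P.bs (k • y) = k • P.bs y := by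
  apply Subtype.ext
  show P.gx ((k : F g) * y.1) * ((k : F g) * y.1) = (k : F g) * (P.gx y.1 * y.1)
  rw [P.gx_mul k.2 y.2]
  group

/-- the boundary arcs -/
theorem s0_fin : {a : Arc P.KP P.Omg | ∃ x, a = arc P.KP x (P.bs x)}.Finite := by
  classical
  let f : {c // c ∈ fr A ∧ c ∉ fr B} → Arc P.KP P.Omg := fun c =>
    arc P.KP (⟨P.b c.1, c.1, 1, c.2.1, c.2.2, P.KP.one_mem, (one_mul _).symm⟩ : P.Omg)
      (P.bs ⟨P.b c.1, c.1, 1, c.2.1, c.2.2, P.KP.one_mem, (one_mul _).symm⟩)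
  have hfin : Finite {c // c ∈ fr A ∧ c ∉ fr B} :=
    Set.Finite.to_subtype ((fr A).finite_toSet.subset fun c hc => hc.1)
  refine (Set.finite_range f).subset ?_
  rintro _ ⟨⟨_, c, k, hc, hc', hk, rfl⟩, rfl⟩
  refine ⟨⟨c, hc, hc'⟩, ?_⟩
  have e : (⟨k * P.b c, c, k, hc, hc', hk, rfl⟩ : P.Omg) = (⟨k, hk⟩ : P.KP) •
      (⟨P.b c, c, 1, hc, hc', P.KP.one_mem, (one_mul _).symm⟩ : P.Omg) := rfl
  rw [e, P.bs_smul, arc_smul]

/-- the boundary arcs -/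
noncomputable def s0 : Finset (Arc P.KP P.Omg) := P.s0_fin.toFinset

theorem mem_s0 {a : Arc P.KP P.Omg} : a ∈ P.s0 ↔ ∃ x, a = arc P.KP x (P.bs x) := by
  unfold s0
  rw [Set.Finite.mem_toFinset]
  rfl

theorem bp_bs (x : P.Omg) : P.bp (P.bs x) = x := by
  apply Subtype.ext
  show (P.gx (P.gx x.1 * x.1))⁻¹ * (P.gx x.1 * x.1) = x.1
  rw [P.gx_gx x.2, inv_mul_cancel_left]

theorem arc_s0 {y z : P.Omg} (h : arc P.KP y z ∈ P.s0) : z = P.bs y ∨ z = P.bp y := by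
  rw [mem_s0] at h
  obtain ⟨x, h⟩ := h
  rw [arc_eq] at h
  obtain ⟨k, ⟨h1, h2⟩ | ⟨h1, h2⟩⟩ := h
  · left
    rw [← h1, P.bs_smul] at h2
    exact smul_left_cancel k h2
  · right
    rw [← h2, P.bs_smul] at h1
    have h3 := smul_left_cancel k h1
    rw [h3, P.bp_bs]

/-- a relation of a region on the base points -/
theorem neE (E : Hf g) : NE P.KP (fun x y : P.Omg => E.E.S x.1 y.1) where
  refl x := GP.refl _
  symm h := GP.symm h
  trans h h' := GP.trans h h'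
  smul k {x y} h := (E.S_mul k.2.1).2 h
  noncr h h' hc := GP.noncr h h' hc

/-- the `AD` structure -/
noncomputable def ad (E : Hf g) (hAE : A ≤ E) (hv : Set (Cv g)) : AD P.KP P.Omg (Set (Set (F g))) where
  E x y := E.E.S x.1 y.1
  A x y := A.E.S x.1 y.1
  hE := P.neE E
  hA := P.neE A
  sub {x y} h := hAE.2 _ _ (P.om_low x.2) h
  ty x _ := orbK (P.lnx x.1)
  hv t := ∃ c ∈ hv, c.1 = t
  s0 := P.s0
  bs := P.bs
  bp := P.bp
  bs_ne := P.bs_ne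
  bp_ne := P.bp_ne
  bs_first := P.bs_first
  bp_last := P.bp_last
  bs_mem y := P.mem_s0.2 ⟨y, rfl⟩
  bp_mem y := by
    refine P.mem_s0.2 ⟨P.bp y, ?_⟩
    rw [P.bs_bp, arc_comm]
  bs_A := P.bs_A
  bp_A := P.bp_A
  T1 := fun _ _ _ _ _ _ _ _ => rfl
  T2 := by
    intro p p' u h _ _
    show orbK (P.lnx p.1) = orbK (P.lnx p'.1)
    rw [(P.om_ard p.2).eq_of_rel A.lf (P.om_ard p'.2) h]
  T3 := by
    intro k x y
    show orbK (P.lnx ((k : F g) * x.1)) = orbK (P.lnx x.1)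
    rw [P.lnx_mul k.2 x.2]
    exact orbK_eq_of_mem ⟨k, k.2.1, rfl⟩

end PD

end TorP
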