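import Pool.Agent.Lib.MP_05cdf2_gt.L8.Dfs
import Pool.Agent.Lib.MP_05cdf2_gt.N6.NArc

/-! MP_05cdf2_gt, stream H (helper49): the piece of a connected slab, points behind its bottoms, chords of systems. -/

set_option autoImplicit false
set_option linter.unusedSectionVars false

namespace TorP
open TorM TorG TorL TorH TorN

variable {g : ℕ} [NeZero g]

namespace PD

variable {A B : Hf g} (P : PD A B)

/-- every bottom of the piece has a base point -/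
theorem bottom_pt {D : Set (F g)} {k : F g} (h : Ard A.E P.l0 D k) (hB : B.E.S k P.k0) (hn : ¬ Ln B.E D) :
    ∃ y : P.Omg, P.lnx y.1 = D ∧ A.E.S k y.1 := by
  have hc : KCut D := A.kg.kcut h.ln.1
  have h1 : cv D hc ∈ fr A := (cv_mem_fr hc).2 h.ln
  have h2 : cv D hc ∉ fr B := fun hh => hn ((cv_mem_fr hc).1 hh)
  obtain ⟨D', h3, h4, h5⟩ := P.hb _ h1 h2
  have h6 : D ∈ orbK D' := by
    rw [← h3]
    exact mem_orbK_self D
  obtain ⟨m, hm, rfl⟩ := h6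
  have h7 : Ard A.E (m * P.l0) (tr m D') (m * P.b (cv _ hc)) := ard_mul hm h4
  have h8 : A.E.S P.l0 (m * P.l0) := h.inn_of_eq A.lf h7
  have h9 : A.E.S k (m * P.b (cv _ hc)) := h.rel_of_eq A.lf h7
  have h10 : B.E.S k (m * P.b (cv _ hc)) := P.hAB.2 _ _ (h.low A.lf) h9
  have h11 : m ∈ P.KP := ⟨hm, h8, GP.trans (GP.symm hB) (GP.trans h10 ((B.S_mul hm).2 h5))⟩
  exact ⟨⟨m * P.b (cv _ hc), _, m, h1, h2, h11, rfl⟩, ((h7.cong (GP.symm h8)).eq_compl A.lf).symm, h9⟩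

/-- powers of the generator -/
theorem gx_pow_mem {x : F g} (hx : x ∈ P.Om) (n : ℤ) : P.gx x ^ n ∈ P.KP := P.KP.zpow_mem (P.gx_mem hx) n

theorem gx_pow {x : F g} (hx : x ∈ P.Om) (n : ℤ) : P.gx (P.gx x ^ n * x) = P.gx x := by
  rw [P.gx_mul (P.gx_pow_mem hx n) hx]
  group

/-- the hypothesis `hM` of `face_alt` -/
theorem hM {E : Hf g} (hAE : A ≤ E) (hEB : E ≤ B) (u : F g) (x : P.Omg) (h : E.E.S u x.1) :
    (∃ y : P.Omg, u = y.1 ∨ Cyc y.1 u (P.bs y).1) ∨ u * zeta g * u⁻¹ ∈ P.KP := by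
  rcases pos_piece A.kg B.kg P.hAB P.hD0 P.h0 u with ⟨h1, h2⟩ | ⟨D, k, l, h1, h2, h3, h4, h5⟩ | ⟨G, k, l, h1, h2, h3, h4, h5⟩
  · right
    have hp : ph (u * zeta g * u⁻¹) = 0 := by
      rw [ph_mul, ph_mul, ph_inv, ph_zeta]
      ring
    have e : u * zeta g * u⁻¹ * u = u * zeta g := by group
    refine ⟨hp, ?_, ?_⟩
    · have h3 := (A.S_mul hp).2 h2
      rw [e] at h3
      exact GP.trans (GP.symm h2) (GP.trans (A.S_zeta u) h3)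
    · have h3 := (B.S_mul hp).2 h1
      rw [e] at h3
      exact GP.trans (GP.symm h1) (GP.trans (B.S_zeta u) h3)
  · left
    have hA : Ard A.E P.l0 D k := ⟨h1, l, h2, h4⟩
    have hKB : KB A.E B.E P.k0 P.l0 D := ⟨h1, 1, k, l, ph_one, h2, by rw [one_mul]; exact h3, by rw [one_mul]; exact h4⟩
    obtain ⟨y, h6, h7⟩ := P.bottom_pt hA h3 (not_common A.kg B.kg P.hD0 P.h0 P.hn hKB)
    have hu : u ∈ (P.lnx y.1)ᶜ := by
      rw [h6]
      exact h5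
    obtain ⟨n, hn⟩ := gen_between (P.om_w y.2).compl (P.om_out y.2) hu
    refine ⟨⟨P.gx y.1 ^ n * y.1, P.om_mul (P.gx_pow_mem y.2 n) y.2⟩, hn.imp_right fun hh => ?_⟩
    have e : (P.bs ⟨P.gx y.1 ^ n * y.1, P.om_mul (P.gx_pow_mem y.2 n) y.2⟩).1 = P.gx y.1 * (P.gx y.1 ^ n * y.1) := by
      show P.gx (P.gx y.1 ^ n * y.1) * (P.gx y.1 ^ n * y.1) = _
      rw [P.gx_pow y.2]
    rw [e]
    exact hh
  · exfalso
    have h6 : B.E.S x.1 u := hEB.2 _ _ (hAE.1 (P.om_low x.2)) (GP.symm h)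
    have h7 : B.E.S k u := GP.trans h3 (GP.trans (GP.symm (P.om_B x.2)) h6)
    exact h2.out ((h1.1.sat _ _ h7).2 h5)

/-- the pair of points of a chord -/
def pr (x y : P.Omg) : F g × F g := (x.1, y.1)

theorem okc (x y : P.Omg) : OkC A B (x.1, y.1) where
  p1 := P.om_low x.2
  p2 := P.om_low y.2
  b := GP.trans (P.om_B x.2) (GP.symm (P.om_B y.2))
  flt := fun _ _ hab ha hc => (P.om_ard x.2).flt A.lf (P.om_ard y.2) hab ha hc

theorem cmpt {x y x' y' : P.Omg} (h : ∀ k : P.KP, ¬ Cr x y (k • x') (k • y')) :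
    Cmpt A (x.1, y.1) (x'.1, y'.1) := by
  intro k hk hc
  have hc' : Cr x.1 y.1 (k * x'.1) (k * y'.1) := hc
  rcases Ard.cmpt A.kg (P.om_ard x.2) (P.om_ard y.2) (ard_mul hk (P.om_ard x'.2)) (ard_mul hk (P.om_ard y'.2)) hc'
    with h1 | h1
  · exfalso
    have h2 : B.E.S x.1 y.1 := GP.trans (P.om_B x.2) (GP.symm (P.om_B y.2))
    have h3 : B.E.S (k * x'.1) (k * y'.1) := (B.S_mul hk).2 (GP.trans (P.om_B x'.2) (GP.symm (P.om_B y'.2)))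
    have h4 := GP.noncr h3 h2 hc'
    have h5 : B.E.S P.k0 (k * P.k0) :=
      GP.trans (GP.symm (P.om_B x.2)) (GP.trans h4 ((B.S_mul hk).2 (P.om_B x'.2)))
    exact h ⟨k, hk, h1, h5⟩ hc'
  · exact h1

theorem lnx_gap {x y : P.Omg} (h : ¬ A.E.S x.1 y.1) : gap A.E x.1 y.1 = P.lnx x.1 :=
  (P.om_ard x.2).gap_eq A.lf (P.om_ard y.2) h

theorem al_of {hv : Set (Cv g)} {x y : P.Omg} (h : ¬ A.E.S x.1 y.1)
    (h' : orbK (P.lnx x.1) ≠ orbK (P.lnx y.1) ∨ ∃ c ∈ hv, c.1 = orbK (P.lnx x.1)) :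
    (∀ k, ph k = 0 → gap A.E y.1 x.1 ≠ tr k (gap A.E x.1 y.1)) ∨ ∃ c ∈ hv, c.1 = orbK (gap A.E x.1 y.1) := by
  rw [P.lnx_gap h, P.lnx_gap (fun hh => h (GP.symm hh))]
  rcases h' with h1 | h1
  · left
    intro k hk e
    exact h1 (orbK_eq_of_mem ⟨k, hk, e⟩).symm
  · exact Or.inr h1

/-- finitely many orbits -/
theorem fin_orb : ∃ Q : Finset P.Omg, ∀ x : P.Omg, ∃ k : P.KP, k • x ∈ Q := by
  classical
  let f : {c // c ∈ fr A ∧ c ∉ fr B} → P.Omg := fun c =>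
    ⟨P.b c.1, c.1, 1, c.2.1, c.2.2, P.KP.one_mem, (one_mul _).symm⟩
  have hfin : Finite {c // c ∈ fr A ∧ c ∉ fr B} :=
    Set.Finite.to_subtype ((fr A).finite_toSet.subset fun c hc => hc.1)
  refine ⟨(Set.finite_range f).toFinset, ?_⟩
  rintro ⟨_, c, k, hc, hc', hk, rfl⟩
  refine ⟨(⟨k, hk⟩ : P.KP)⁻¹, ?_⟩
  rw [Set.Finite.mem_toFinset]
  refine ⟨⟨c, hc, hc'⟩, ?_⟩
  apply Subtype.ext
  show P.b c = k⁻¹ * (k * P.b c)
  rw [inv_mul_cancel_left]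

end PD

/-- the piece of a connected slab -/
theorem exists_PD {A B : Hf g} (hJ : B.J ≤ A.J + 1) (hcn : (slb (nums g)).Cn A B)
    (hne : ∃ c, c ∈ fr A ∧ c ∉ fr B) : Nonempty (PD A B) := by
  classical
  obtain ⟨c0, hc0, hc0'⟩ := hne
  obtain ⟨D0, hD0, e0⟩ := mem_fr.1 hc0
  have hn : ¬ Ln B.E D0 := fun hh => hc0' (mem_fr.2 ⟨D0, hh, e0⟩)
  obtain ⟨k0, l0, h0, -, -⟩ := hD0.adj
  obtain ⟨z, h1, h2, h3, h4, h5⟩ := comp_piece hJ hcn.1.le hD0 hn h0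
  have hz : z = B := by
    rcases hcn.2 z ⟨h1, h2, fun c hc => Finset.mem_union.2 (h4 c hc)⟩ with h | h
    · exact absurd h h3
    · exact h
  subst hz
  have key : ∀ c, ∃ p : F g, c ∈ fr A → c ∉ fr z → ∃ D, c.1 = orbK D ∧ Ard A.E l0 D p ∧ z.E.S p k0 := by
    intro c
    by_cases hc : c ∈ fr A ∧ c ∉ fr z
    · obtain ⟨hc1, hc2⟩ := hc
      obtain ⟨D, hD, e⟩ := mem_fr.1 hc1
      have hDz : ¬ Ln z.E D := fun hh => hc2 (mem_fr.2 ⟨D, hh, e⟩)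
      have hKB : KB A.E z.E k0 l0 D := by
        by_contra hh
        exact hDz ((h5 D).2 (Or.inl ⟨hD, hh⟩))
      obtain ⟨-, h, k, l, a1, a2, a3, a4⟩ := hKB
      have hz : ph h⁻¹ = 0 := by simp [a1]
      refine ⟨h⁻¹ * k, fun _ _ => ⟨tr h⁻¹ D, ?_, ⟨(A.kg.ln_tr hz).2 hD, h⁻¹ * l, A.kg.adj_tr hz a2, ?_⟩, ?_⟩⟩
      · rw [e]
        exact (orbK_eq_of_mem ⟨h⁻¹, hz, rfl⟩).symm
      · have := (A.kg.S_mul hz).2 a4
        rwa [inv_mul_cancel_left] at this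
      · have := (z.kg.S_mul hz).2 a3
        rwa [inv_mul_cancel_left] at this
    · exact ⟨1, fun h h' => absurd ⟨h, h'⟩ hc⟩
  choose b hb using key
  exact ⟨⟨k0, l0, D0, hcn.1.le, hD0, h0, hn, b, hb⟩⟩

end TorP
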