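import Pool.Agent.Lib.MP_05cdf2_gt.L8.Ex
import Pool.Agent.Lib.MP_05cdf2_gt.V6.VDec

/-! MP_05cdf2_gt, stream N (helper6): the number of `A`, `E` is at most the dimension of the span of the chords
between base points of the bottoms of the piece of `B - A`. -/

set_option autoImplicit false
set_option linter.unusedSectionVars false

namespace TorP
open TorM TorG TorL TorH TorN Module

variable {g : ℕ} [NeZero g]

namespace PD

variable {A B : Hf g} (P : PD A B)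

theorem b_mem {c : Cv g} (h1 : c ∈ fr A) (h2 : c ∉ fr B) : P.b c ∈ P.Om :=
  ⟨c, 1, h1, h2, P.KP.one_mem, (one_mul _).symm⟩

/-- an `A`-additive cochain which vanishes on the chords of the piece vanishes on the pairs over a class -/
theorem ck_zero {E : Hf g} (hAE : A ≤ E) (hEB : E ≤ B) {f : F g → F g → ℚ} (hf : f ∈ ZZ A E)
    (h0 : ∀ x y, x ∈ P.Om → y ∈ P.Om → E.E.S x y → f x y = 0) {k k' : F g} (h : TorW.Ck A E k k') : f k k' = 0 := by
  obtain ⟨D, D', l, l', s1, s2, a1, a2, p1, p2, hl, hE⟩ := h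
  have hD : Ard A.E l D k := ⟨⟨s1, k, l, a1, p1⟩, l, a1, GP.refl _⟩
  have hD' : Ard A.E l D' k' := ⟨⟨s2, k', l', a2, p2⟩, l', a2, GP.symm hl⟩
  by_cases hA : A.E.S k k'
  · exact hf.2.1 _ _ p1 hA
  have hB : B.E.S k k' := hEB.2 _ _ (hAE.1 p1) hE
  have hn : ¬ Ln B.E D := fun hh => hD.out ((hh.1.sat _ _ hB).2 (hD.mem_of_nrel A.lf hD' hA))
  have hn' : ¬ Ln B.E D' := fun hh =>
    hD'.out ((hh.1.sat _ _ hB).1 (hD'.mem_of_nrel A.lf hD fun h => hA (GP.symm h)))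
  have hc : KCut D := A.kg.kcut s1
  have h1 : cv D hc ∈ fr A := (cv_mem_fr hc).2 hD.ln
  have h2 : cv D hc ∉ fr B := fun hh => hn ((cv_mem_fr hc).1 hh)
  obtain ⟨D1, h3, h4, h5⟩ := P.hb _ h1 h2
  have h6 : D ∈ orbK D1 := by
    rw [← h3]
    exact mem_orbK_self D
  obtain ⟨m, hm, rfl⟩ := h6
  have hm' : ph m⁻¹ = 0 := by rw [ph_inv, hm, neg_zero]
  have h7 : Ard A.E (m * P.l0) (tr m D1) (m * P.b (cv _ hc)) := ard_mul hm h4
  have h8 : A.E.S l (m * P.l0) := hD.inn_of_eq A.lf h7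
  have h9 : A.E.S k (m * P.b (cv _ hc)) := hD.rel_of_eq A.lf h7
  -- the second line around `l0`
  have h10 : Ard A.E P.l0 (tr m⁻¹ D') (m⁻¹ * k') := by
    have h11 := (ard_mul hm' hD').cong ((A.S_mul hm').2 h8)
    rwa [inv_mul_cancel_left] at h11
  have h12 : B.E.S (m * P.b (cv _ hc)) k' := GP.trans (GP.symm (P.hAB.2 _ _ p1 h9)) hB
  have h13 : B.E.S (m⁻¹ * k') P.k0 := by
    have h14 := (B.S_mul hm').2 h12
    rw [inv_mul_cancel_left] at h14
    exact GP.trans (GP.symm h14) h5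
  have h15 : ¬ Ln B.E (tr m⁻¹ D') := fun hh => hn' ((B.kg.ln_tr hm').1 hh)
  obtain ⟨y, -, h16⟩ := P.bottom_pt h10 h13 h15
  have h17 : E.E.S (P.b (cv _ hc)) y.1 := by
    have e1 : E.E.S (m * P.b (cv _ hc)) k' := GP.trans (GP.symm (hAE.2 _ _ p1 h9)) hE
    have e2 := (E.S_mul hm').2 e1
    rw [inv_mul_cancel_left] at e2
    exact GP.trans e2 (hAE.2 _ _ (h10.low A.lf) h16)
  have h18 := h0 _ _ (P.b_mem h1 h2) y.2 h17
  have e3 : f (m⁻¹ * k') y.1 = 0 := hf.2.1 _ _ (h10.low A.lf) h16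
  have e4 : f k (m * P.b (cv _ hc)) = 0 := hf.2.1 _ _ p1 h9
  have e5 : f (m * P.b (cv _ hc)) k' = f (P.b (cv _ hc)) (m⁻¹ * k') := by
    have h19 := cc_K hf.1 hm (P.b (cv _ hc)) (m⁻¹ * k')
    rwa [mul_inv_cancel_left] at h19
  have e6 := cc_add hf.1 (P.b (cv _ hc)) (m⁻¹ * k') y.1
  rw [e3, add_zero, h18] at e6
  rw [← cc_add hf.1 k (m * P.b (cv _ hc)) k', e4, zero_add, e5, e6]

/-- **the number of a slab is at most the dimension of the span of the chords of the piece** -/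
theorem nu_le_P {E : Hf g} (hAE : A ≤ E) (hEB : E ≤ B)
    (hM : E.J = A.J ∨ (E.J = A.J + 1 ∧ TorW.Meet A E)) :
    nu A E ≤ (finrank ℚ (TorW.spW A E (fun x y => x ∈ P.Om ∧ y ∈ P.Om ∧ E.E.S x y)) : ℤ) :=
  TorW.nu_le_span hAE fun f hf h0 => TorW.low_corr hAE hM hf fun x y hx hy hxy =>
    TorW.dec hAE (cc_add hf.1) (fun x y h h' => hf.2.1 x y h h')
      (fun k k' h => P.ck_zero hAE hEB hf (fun x y a b c => h0 x y ⟨a, b, c⟩) h) hx hy hxy

end PD

end TorP
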