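import Pool.Agent.Lib.MP_05cdf2_gt.L8.Dfs
import Pool.Agent.Lib.MP_05cdf2_gt.V6.VFill

/-!
# Finite filling systems of the relation of a region on the chord space of a piece
-/

namespace TorP

open TorM TorG TorL TorH TorN TorW

variable {g : ℕ} [NeZero g] {A B : Hf g} (P : PD A B)

namespace PD

theorem kp_eq : TorW.KP A B P.k0 P.l0 = P.KP := rfl

theorem arc_val {x y z w : P.Omg} : arc P.KP x y = arc P.KP z w ↔ arc P.KP x.1 y.1 = arc P.KP z.1 w.1 := by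
  rw [arc_eq, arc_eq]
  constructor
  · rintro ⟨k, ⟨h1, h2⟩ | ⟨h1, h2⟩⟩
    · exact ⟨k, Or.inl ⟨congrArg Subtype.val h1, congrArg Subtype.val h2⟩⟩
    · exact ⟨k, Or.inr ⟨congrArg Subtype.val h1, congrArg Subtype.val h2⟩⟩
  · rintro ⟨k, ⟨h1, h2⟩ | ⟨h1, h2⟩⟩
    · exact ⟨k, Or.inl ⟨Subtype.ext h1, Subtype.ext h2⟩⟩
    · exact ⟨k, Or.inr ⟨Subtype.ext h1, Subtype.ext h2⟩⟩

theorem fill {E : Hf g} (hAE : A ≤ E) (hEB : E ≤ B) :
    ∃ σ : Finset (Arc P.KP P.Omg), Sy (CE fun x y : P.Omg => E.E.S x.1 y.1) σ ∧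
      Fi (fun x y : P.Omg => E.E.S x.1 y.1) σ := by
  classical
  have h0 : ∃ σ : Finset (Arc P.KP (F g)), Sy (CE (EO E P.Om)) σ ∧ Fi (EO E P.Om) σ := by
    have hf : FO (TorW.KP A B P.k0 P.l0) (· ∈ P.Om) := by
      have hfin : {q : F g | ∃ c ∈ fr A, q = P.b c}.Finite := by
        refine ((fr A).finite_toSet.image P.b).subset ?_
        rintro q ⟨c, hc, rfl⟩
        exact ⟨c, hc, rfl⟩
      refine ⟨hfin.toFinset, ?_⟩
      rintro x ⟨c, k, hc, hc', hk, rfl⟩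
      exact ⟨P.b c, (Set.Finite.mem_toFinset _).2 ⟨c, hc, rfl⟩, k, hk, rfl⟩
    have := fill_piece (k0 := P.k0) (l0 := P.l0) hAE hEB (Ω := P.Om) (fun k hk x hx => P.om_mul hk hx) hf (by
      intro x hx
      obtain ⟨l, h1, h2⟩ := (P.om_ard hx).adj
      exact ⟨P.lnx x, l, (P.om_ard hx).ln, h1, h2, P.om_B hx⟩)
    rwa [P.kp_eq] at this
  obtain ⟨σ, h1, h2⟩ := h0
  have hNE : NE P.KP (EO E P.Om) := ne_EO (K := P.KP) (fun k hk => hk.1) (fun k hk x hx => P.om_mul hk hx) E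
  let f : Arc P.KP (F g) → Finset (Arc P.KP P.Omg) := fun a =>
    if h : (rep a).1 ∈ P.Om ∧ (rep a).2 ∈ P.Om then
      {arc P.KP (⟨(rep a).1, h.1⟩ : P.Omg) (⟨(rep a).2, h.2⟩ : P.Omg)} else ∅
  have hm : ∀ x y : P.Omg, arc P.KP x y ∈ σ.biUnion f ↔ arc P.KP x.1 y.1 ∈ σ := by
    intro x y
    rw [Finset.mem_biUnion]
    constructor
    · rintro ⟨a, ha, h⟩
      by_cases hr : (rep a).1 ∈ P.Om ∧ (rep a).2 ∈ P.Om
      · have e : f a = {arc P.KP (⟨(rep a).1, hr.1⟩ : P.Omg) (⟨(rep a).2, hr.2⟩ : P.Omg)} := dif_pos hr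
        rw [e, Finset.mem_singleton, arc_val] at h
        rw [h]
        have := arc_rep a
        rwa [this]
      · have e : f a = ∅ := dif_neg hr
        rw [e] at h
        exact (Finset.notMem_empty _ h).elim
    · intro h
      refine ⟨_, h, ?_⟩
      have h3 := arc_rep (arc P.KP x.1 y.1)
      have hr : (rep (arc P.KP x.1 y.1)).1 ∈ P.Om ∧ (rep (arc P.KP x.1 y.1)).2 ∈ P.Om := by
        rw [arc_eq] at h3
        obtain ⟨k, ⟨e1, e2⟩ | ⟨e1, e2⟩⟩ := h3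
        · have e1' : (rep (arc P.KP x.1 y.1)).1 = k⁻¹ • x.1 := eq_inv_smul_iff.2 e1
          have e2' : (rep (arc P.KP x.1 y.1)).2 = k⁻¹ • y.1 := eq_inv_smul_iff.2 e2
          rw [e1', e2']
          exact ⟨P.om_mul (k⁻¹).2 x.2, P.om_mul (k⁻¹).2 y.2⟩
        · have e1' : (rep (arc P.KP x.1 y.1)).1 = k⁻¹ • y.1 := eq_inv_smul_iff.2 e1
          have e2' : (rep (arc P.KP x.1 y.1)).2 = k⁻¹ • x.1 := eq_inv_smul_iff.2 e2
          rw [e1', e2']
          exact ⟨P.om_mul (k⁻¹).2 y.2, P.om_mul (k⁻¹).2 x.2⟩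
      have e : f (arc P.KP x.1 y.1) = {arc P.KP (⟨(rep (arc P.KP x.1 y.1)).1, hr.1⟩ : P.Omg)
        (⟨(rep (arc P.KP x.1 y.1)).2, hr.2⟩ : P.Omg)} := dif_pos hr
      rw [e, Finset.mem_singleton, arc_val]
      exact h3.symm
  refine ⟨σ.biUnion f, ?_, ?_⟩
  · intro a ha b hb
    obtain ⟨x, y, rfl⟩ := arc_surj a
    obtain ⟨z, w, rfl⟩ := arc_surj b
    have m1 := (hm x y).1 ha
    have m2 := (hm z w).1 hb
    obtain ⟨c1, c2, c3⟩ := h1 _ m1 _ m2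
    have key : ∀ u v : P.Omg, EO E P.Om u.1 v.1 → E.E.S u.1 v.1 := by
      rintro u v (h | h)
      · rw [h]
        exact GP.refl _
      · exact h.2.2
    refine ⟨?_, ?_, ?_⟩
    · rw [co_iff]
      intro z' w' he hcr
      exact c1 x.1 y.1 z'.1 w'.1 rfl (P.arc_val.1 he) hcr
    · rw [in_iff (P.neE E)]
      exact key _ _ ((in_iff hNE).1 c2)
    · rw [in_iff (P.neE E)]
      exact key _ _ ((in_iff hNE).1 c3)
  · intro x y hxy
    have h3 : Gn σ x.1 y.1 := h2 _ _ (Or.inr ⟨x.2, y.2, hxy⟩)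
    have key : ∀ z : F g, Gn σ x.1 z → ∀ hz : z ∈ P.Om, Gn (σ.biUnion f) x ⟨z, hz⟩ := by
      intro z hz
      induction hz with
      | refl => intro hz; exact Relation.ReflTransGen.refl
      | @tail b c hb hc ih =>
        intro hz
        have h4 : EO E P.Om b c := (in_iff hNE).1 (h1 _ hc _ hc).2.1
        rcases h4 with h4 | h4
        · subst h4
          exact ih hz
        · exact Relation.ReflTransGen.tail (ih h4.1) ((hm ⟨b, h4.1⟩ ⟨c, hz⟩).2 hc)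
    exact key y.1 h3 y.2

end PD

end TorP
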