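import Pool.Agent.Lib.MP_05cdf2_gt.L8.CLE
import Pool.Agent.Lib.MP_05cdf2_gt.L8.Adm61
import Pool.Agent.Lib.MP_05cdf2_gt.L8.PFill
import Pool.Agent.Lib.MP_05cdf2_gt.L8.Nu6

/-! MP_05cdf2_gt, stream H (helper49): the arcs over `A` in `B`. -/

set_option autoImplicit false
set_option linter.unusedSectionVars false
set_option linter.unusedVariables false

namespace TorP
open TorM TorG TorL TorH TorN TorA TorW Module

variable {g : ℕ} [NeZero g]

namespace PD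

variable {A B : Hf g} (P : PD A B)

theorem adm {E : Hf g} (hAE : A ≤ E) (hEB : E ≤ B) (hJ : E.J ≤ A.J + 1) {hv : Set (Cv g)}
    (hP : (slb (nums g)).PP A hv E) : Adm (P.ad E hAE hv) P.s0 := by
  refine adm_of (M := P.ad E hAE hv) (fun x => orbK (P.lnx x.1)) (fun x y _ _ => rfl) ?_ ?_ ?_ ?_
  · intro x y h
    show orbK (P.lnx x.1) = orbK (P.lnx y.1)
    rw [(P.om_ard x.2).eq_of_rel A.lf (P.om_ard y.2) h]
  · intro y z h
    exact P.arc_s0 h
  · intro y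
    exact ⟨⟨P.gx y.1, P.gx_mem y.2⟩, rfl⟩
  · intro x y h1 h2 h3 _
    exact hPP61 P hAE hEB hJ hP x y h1 h2 h3

open Classical in
/-- **the arcs** -/
noncomputable def arcD (hJ : B.J ≤ A.J + 1) (hv : Set (Cv g)) : ArcD A B hv where
  α := Arc P.KP P.Omg
  rp := P.rp
  Q := P.Q hv
  mono ρ ρ' h hQ := ⟨hQ.1.mono (Finset.union_subset_union_right h), fun a ha => hQ.2.1 a (h ha), hQ.2.2.mono h⟩
  okc ρ hQ a ha := P.okc (rep a).1 (rep a).2
  cmp ρ hQ a ha b hb := by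
    refine P.cmpt (x := (rep a).1) (y := (rep a).2) (x' := (rep b).1) (y' := (rep b).2) fun k => ?_
    refine hQ.1 a (Finset.mem_union_right _ ha) b (Finset.mem_union_right _ hb) _ _ _ _ (arc_rep a) ?_
    rw [arc_smul, arc_rep]
  al ρ hQ a ha := by
    obtain ⟨-, h1, h2⟩ := (hQ.2.1 a ha).1 _ _ (arc_rep a)
    exact P.al_of h1 h2
  ind ρ hQ := hQ.2.2
  ac E hAE hEB hP := by
    have hJE : E.J ≤ A.J + 1 := (Hf.J_le hEB).trans hJ
    obtain ⟨σ, h1, h2⟩ := P.fill hAE.le hEB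
    have h3 := P.ac_E hAE.le hEB hv h1 h2 (P.adm hAE.le hEB hJE hP)
    have h4 := P.nu_le_P hAE.le hEB (meet_of61 hAE.le hJE hP)
    refine Ac.mono h3 ?_
    rw [Int.toNat_le]
    exact h4

end PD

open Classical in
theorem arcD_of {A B : Hf g} (hv : Set (Cv g)) (hok : B ≤ Hf.tIso g A) (hcn : (slb (nums g)).Cn A B)
    (hw : TorT.Wt hv (fr A \ fr B)) : Nonempty (ArcD A B hv) := by
  have hJ : B.J ≤ A.J + 1 := by
    have := Hf.J_le hok
    rwa [J_tIso] at this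
  obtain ⟨c, hc⟩ := hw.ne
  rw [Finset.mem_sdiff] at hc
  obtain ⟨P⟩ := exists_PD hJ hcn ⟨c, hc.1, hc.2⟩
  exact ⟨P.arcD hJ hv⟩

/-- **HN from the single arc lemma** -/
theorem hn_of_S1 (hS1 : S1 g) : (slb (nums g)).HN :=
  hn_of hS1 fun A B hv hok hcn _ hw => arcD_of hv hok hcn hw

end TorP
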