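import Mathlib
import Pool.Agent.Lib.MP_05cdf2_gt.L6.Pc

/-! MP_05cdf2_gt, stream H (helper49): lines around a class.

`Ard X l0 D x`: `D` is a line of `X`, `x` is adjacent to it outside, the class inside is the class of `l0`. -/

set_option autoImplicit false
set_option linter.unusedSectionVars false

namespace TorL
open TorM TorG

section gp
variable {α : Type} [LinearOrder α] {X : GP α}

/-- `x` is adjacent to the line `D`, whose inner class is the class of `l0` -/
structure Ard (X : GP α) (l0 : α) (D : Set α) (x : α) : Prop where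
  ln : Ln X D
  adj : ∃ l, Adj X D x l ∧ X.S l l0

namespace Ard
variable {l0 l1 : α} {D D' : Set α} {x y x' y' : α}

theorem out (h : Ard X l0 D x) : x ∉ D := by
  obtain ⟨l, h1, -⟩ := h.adj
  exact h1.out

theorem inn (h : Ard X l0 D x) : l0 ∈ D := by
  obtain ⟨l, h1, h2⟩ := h.adj
  exact (h.ln.1.sat _ _ h2).1 h1.inn

theorem low (hX : LF X) (h : Ard X l0 D x) : x ∈ X.P := by
  obtain ⟨l, h1, -⟩ := h.adj
  exact (ln_adj_mem hX h.ln h1).1

theorem high (hX : LF X) (h : Ard X l0 D x) : l0 ∉ X.P := by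
  obtain ⟨l, h1, h2⟩ := h.adj
  exact fun hh => (ln_adj_mem hX h.ln h1).2 ((GP.col h2).2 hh)

theorem nrel (h : Ard X l0 D x) : ¬ X.S l0 x := fun hh => h.out ((h.ln.1.sat _ _ hh).1 h.inn)

/-- the outer side is the gap of the inner class -/
theorem eq_gap (hX : LF X) (h : Ard X l0 D x) : Dᶜ = gap X l0 x := by
  obtain ⟨l, h1, h2⟩ := h.adj
  rw [← gap_class h2]
  exact h1.compl.eq_gap_of_mem hX h.ln.1.compl h1.out

theorem eq_compl (hX : LF X) (h : Ard X l0 D x) : D = (gap X l0 x)ᶜ := by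
  rw [← h.eq_gap hX, compl_compl]

/-- the line is the gap of the outer class -/
theorem gap_out (hX : LF X) (h : Ard X l0 D x) (hy : y ∈ D) : gap X x y = D := by
  obtain ⟨l, h1, h2⟩ := h.adj
  exact (h1.eq_gap_of_mem hX h.ln.1 hy).symm

theorem sub_of_ne (hX : LF X) (h : Ard X l0 D x) (h' : Ard X l0 D' x') (hne : D ≠ D') : D'ᶜ ⊆ D := by
  intro z hz
  by_contra hz2
  have e1 := h.eq_gap hX
  have e2 := h'.eq_gap hX
  have z1 : z ∈ gap X l0 x := by
    rw [← e1]
    exact hz2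
  have z2 : z ∈ gap X l0 x' := by
    rw [← e2]
    exact hz
  apply hne
  rw [h.eq_compl hX, h'.eq_compl hX, ← gap_congr h.nrel z1, ← gap_congr h'.nrel z2]

theorem eq_of_rel (hX : LF X) (h : Ard X l0 D x) (h' : Ard X l0 D' x') (hr : X.S x x') : D = D' := by
  by_contra hne
  have h1 : x' ∈ D := h.sub_of_ne hX h' hne h'.out
  exact h.out ((h.ln.1.sat _ _ hr).2 h1)

theorem rel_of_eq (hX : LF X) (h : Ard X l0 D x) (h' : Ard X l1 D x') : X.S x x' := by
  obtain ⟨l, h1, h2⟩ := h.adj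
  obtain ⟨l', h1', h2'⟩ := h'.adj
  exact h1.out_unique hX h.ln.1 h1'

theorem inn_of_eq (hX : LF X) (h : Ard X l0 D x) (h' : Ard X l1 D x') : X.S l0 l1 := by
  obtain ⟨l, h1, h2⟩ := h.adj
  obtain ⟨l', h1', h2'⟩ := h'.adj
  exact GP.trans (GP.symm h2) (GP.trans (h1.inn_unique hX h.ln.1 h1') h2')

theorem mem_of_nrel (hX : LF X) (h : Ard X l0 D x) (h' : Ard X l0 D' x') (hr : ¬ X.S x x') : x' ∈ D := by
  refine h.sub_of_ne hX h' ?_ h'.out
  rintro rfl
  exact hr (h.rel_of_eq hX h')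

theorem gap_eq (hX : LF X) (h : Ard X l0 D x) (h' : Ard X l0 D' x') (hr : ¬ X.S x x') : gap X x x' = D :=
  h.gap_out hX (h.mem_of_nrel hX h' hr)

theorem cong (h : Ard X l0 D x) (h1 : X.S l0 l1) : Ard X l1 D x := by
  obtain ⟨l, h2, h3⟩ := h.adj
  exact ⟨h.ln, l, h2, GP.trans h3 h1⟩

/-- no other low class between two points around a class -/
theorem flt (hX : LF X) (h : Ard X l0 D x) (h' : Ard X l0 D' y) {a b : α} (hab : X.S a b)
    (ha : a ∈ X.P) (hc : Cr a b x y) : X.S a x ∨ X.S a y := by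
  obtain ⟨l, h1, h2⟩ := h.adj
  obtain ⟨l', h1', h2'⟩ := h'.adj
  have hl := (ln_adj_mem hX h.ln h1).2
  have hl' := (ln_adj_mem hX h'.ln h1').2
  have hb : b ∈ X.P := (GP.col hab).1 ha
  have e1 : a ≠ l := by rintro rfl; exact hl ha
  have e2 : b ≠ l := by rintro rfl; exact hl hb
  have e3 : a ≠ l' := by rintro rfl; exact hl' ha
  have e4 : b ≠ l' := by rintro rfl; exact hl' hb
  have key : ∀ {p m : α}, Xs X p m = ∅ → m ∉ X.P → Cr a b p m → X.S a p := by
    intro p m hn hm hcr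
    by_contra hcon
    have : cl X a ∈ Xs X p m := ⟨a, b, rfl, hab, hcr, hcon, fun hh => hm ((GP.col hh).1 ha)⟩
    rw [hn] at this
    exact this
  rcases cr_tri hc e1 e2 with h3 | h3
  · exact Or.inl (key h1.none hl h3)
  · rcases cr_tri h3 e3 e4 with h4 | h4
    · exfalso
      have h5 := GP.noncr (GP.trans h2 (GP.symm h2')) hab h4
      exact hl ((GP.col h5).1 ha)
    · exact Or.inr (key h1'.none hl' (cr_swap2.1 h4))

end Ard

end gp

variable {g : ℕ} [NeZero g] {X : GP (F g)}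


/-- a chord inside `D` and a chord across `D` which cross: there is a translate of the end on the other side -/
theorem orb_beyond {D : Set (F g)} (hD : WCut D) {p q x l : F g} (hp : p ∈ D) (hq : q ∈ D) (hx : x ∉ D)
    (hl : l ∈ D) (hc : Cr p q x l) : ∃ n : ℤ, Cr p q l (gn D ^ n * l) := by
  have hγ := gn_spec hD
  have key : ∀ p q : F g, p ∈ D → q ∈ D → LtD D p q → Cr p q x l → ∃ n : ℤ, Cr p q l (gn D ^ n * l) := by
    intro p q hp hq hpq hc
    obtain ⟨n, hn⟩ := hγ.arch hD hl hq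
    refine ⟨n, ?_⟩
    have h1 := hpq.2.2.2 x hx
    have h2 := hn.2.2.2 x hx
    have h3 := (hpq.trans hD hn).2.2.2 x hx
    unfold Cr Cyc at *
    grind
  rcases ltD_trichotomy hD hp hq with h | h | h
  · exact key p q hp hq h hc
  · subst h
    exact absurd hc (by unfold Cr Cyc; grind)
  · obtain ⟨n, hn⟩ := key q p hq hp h (cr_swap1.1 hc)
    exact ⟨n, cr_swap1.1 hn⟩

/-- crossing adjacent pairs -/
theorem adj_cross (hX : KG X) {D D' : Set (F g)} {x l x' m : F g} (hD : Ln X D) (h : Adj X D x l)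
    (hD' : Ln X D') (h' : Adj X D' x' m) (hc : Cr x' m x l) : X.S x x' ∨ X.S l m := by
  obtain ⟨hxP, hlP⟩ := ln_adj_mem hX.lf hD h
  obtain ⟨hxP', hmP⟩ := ln_adj_mem hX.lf hD' h'
  by_cases h1 : x' ∈ D
  · by_cases h2 : m ∈ D
    · right
      obtain ⟨n, hn⟩ := orb_beyond (hX.wcut hD.1) h1 h2 h.out h.inn hc
      by_contra hcon
      have : cl X l ∈ Xs X x' m := by
        refine ⟨l, _, rfl, hX.orb_inn hD.1 h n, cr_comm.1 hn, fun hh => ?_, hcon⟩
        exact hlP ((GP.col hh).2 hxP')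
      rw [h'.none] at this
      exact this
    · exfalso
      have h3 : Adj X Dᶜ x' m := ⟨fun hh => hh h1, h2, h'.col, h'.none⟩
      exact ln_not hX.lf hD ⟨hD.1.compl, x', m, h3, hxP'⟩
  · by_cases h2 : m ∈ D
    · left
      have h3 : Adj X D x' m := ⟨h1, h2, h'.col, h'.none⟩
      exact h.out_unique hX.lf hD.1 h3
    · left
      obtain ⟨n, hn⟩ := orb_beyond (hX.wcut hD.1).compl (show x' ∈ Dᶜ from h1) (show m ∈ Dᶜ from h2)
        (show l ∉ Dᶜ from fun hh => hh h.inn) (show x ∈ Dᶜ from h.out) (cr_swap2.1 hc)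
      by_contra hcon
      have : cl X x ∈ Xs X x' m := by
        refine ⟨x, _, rfl, (orbS_compl (hX.wcut hD.1)).2 (hX.orb_out hD.1 h) n, cr_comm.1 hn, hcon, fun hh => ?_⟩
        exact hmP ((GP.col hh).1 hxP)
      rw [h'.none] at this
      exact this

/-- crossing chords around two classes -/
theorem Ard.cmpt (hX : KG X) {l0 l1 : F g} {D1 D2 D3 D4 : Set (F g)} {x y x' y' : F g} (h1 : Ard X l0 D1 x)
    (h2 : Ard X l0 D2 y) (h3 : Ard X l1 D3 x') (h4 : Ard X l1 D4 y') (hc : Cr x y x' y') :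
    X.S l0 l1 ∨ X.S x x' ∨ X.S x y' ∨ X.S y x' ∨ X.S y y' := by
  obtain ⟨l, a1, b1⟩ := h1.adj
  obtain ⟨l', a2, b2⟩ := h2.adj
  obtain ⟨m, a3, b3⟩ := h3.adj
  obtain ⟨m', a4, b4⟩ := h4.adj
  obtain ⟨xP, lP⟩ := ln_adj_mem hX.lf h1.ln a1
  obtain ⟨yP, lP'⟩ := ln_adj_mem hX.lf h2.ln a2
  obtain ⟨xP', mP⟩ := ln_adj_mem hX.lf h3.ln a3
  obtain ⟨yP', mP'⟩ := ln_adj_mem hX.lf h4.ln a4
  by_cases hlm : X.S l0 l1
  · exact Or.inl hlm
  have hll : X.S l l' := GP.trans b1 (GP.symm b2)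
  have hmm : X.S m m' := GP.trans b3 (GP.symm b4)
  have n1 : ¬ X.S l m := fun hh => hlm (GP.trans (GP.symm b1) (GP.trans hh b3))
  have n2 : ¬ X.S l' m := fun hh => n1 (GP.trans hll hh)
  have n3 : ¬ X.S l m' := fun hh => n1 (GP.trans hh (GP.symm hmm))
  have n4 : ¬ X.S l' m' := fun hh => n2 (GP.trans hh (GP.symm hmm))
  -- a chord across a line of the second class
  have key : ∀ {D : Set (F g)} {p q : F g}, Ln X D → Adj X D p q → ¬ X.S l q → ¬ X.S l' q → Cr x y p q →
      X.S x p ∨ X.S y p := by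
    intro D p q hD hpq nq nq' hcr
    obtain ⟨pP, qP⟩ := ln_adj_mem hX.lf hD hpq
    have e1 : p ≠ l := by rintro rfl; exact lP pP
    have e2 : q ≠ l := by rintro rfl; exact nq (GP.refl _)
    have e3 : p ≠ l' := by rintro rfl; exact lP' pP
    have e4 : q ≠ l' := by rintro rfl; exact nq' (GP.refl _)
    rcases cr_tri (cr_comm.1 hcr) e1 e2 with c1 | c1
    · exact Or.inl ((adj_cross hX h1.ln a1 hD hpq c1).resolve_right nq)
    · rcases cr_tri c1 e3 e4 with c2 | c2
      · exfalso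
        have : cl X l ∈ Xs X p q := ⟨l, l', rfl, hll, cr_comm.1 c2, fun hh => lP ((GP.col hh).2 pP), nq⟩
        rw [hpq.none] at this
        exact this
      · exact Or.inr ((adj_cross hX h2.ln a2 hD hpq (cr_swap2.1 c2)).resolve_right nq')
  have e1 : x ≠ m := by rintro rfl; exact mP xP
  have e2 : y ≠ m := by rintro rfl; exact mP yP
  have e3 : x ≠ m' := by rintro rfl; exact mP' xP
  have e4 : y ≠ m' := by rintro rfl; exact mP' yP
  rcases cr_tri hc e1 e2 with c1 | c1
  · rcases key h3.ln a3 n1 n2 c1 with h | h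
    · exact Or.inr (Or.inl h)
    · exact Or.inr (Or.inr (Or.inr (Or.inl h)))
  · rcases cr_tri c1 e3 e4 with c2 | c2
    · exfalso
      -- the class of `m` between `x` and `y`
      have c3 := cr_comm.1 c2
      have f1 : m ≠ l := by rintro rfl; exact n1 (GP.refl _)
      have f2 : m' ≠ l := by rintro rfl; exact n3 (GP.refl _)
      have f3 : m ≠ l' := by rintro rfl; exact n2 (GP.refl _)
      have f4 : m' ≠ l' := by rintro rfl; exact n4 (GP.refl _)
      rcases cr_tri c3 f1 f2 with c4 | c4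
      · have : cl X m ∈ Xs X x l := ⟨m, m', rfl, hmm, c4, fun hh => mP ((GP.col hh).2 xP), fun hh => n1 (GP.symm hh)⟩
        rw [a1.none] at this
        exact this
      · rcases cr_tri c4 f3 f4 with c5 | c5
        · exact n1 (GP.symm (GP.noncr hll hmm c5))
        · have : cl X m ∈ Xs X y l' := ⟨m, m', rfl, hmm, cr_swap2.1 c5, fun hh => mP ((GP.col hh).2 yP),
            fun hh => n2 (GP.symm hh)⟩
          rw [a2.none] at this
          exact this
    · rcases key h4.ln a4 n3 n4 (cr_swap2.1 c2) with h | h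
      · exact Or.inr (Or.inr (Or.inl h))
      · exact Or.inr (Or.inr (Or.inr (Or.inr h)))

/-! successor along a line -/

/-- every point behind a line is between two consecutive translates -/
theorem gen_between {D : Set (F g)} (hD : WCut D) {x u : F g} (hx : x ∈ D) (hu : u ∈ D) :
    ∃ n : ℤ, u = gn D ^ n * x ∨ Cyc (gn D ^ n * x) u (gn D * (gn D ^ n * x)) := by
  have hγ := gn_spec hD
  obtain ⟨N, hN⟩ := hγ.arch hD hx hu
  obtain ⟨M, hM⟩ := hγ.arch' hD hx hu
  have hb : ∀ n : ℤ, (u = gn D ^ n * x ∨ LtD D (gn D ^ n * x) u) → n ≤ N := by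
    intro n hn
    by_contra hcon
    have h1 := hγ.lt hD hx (show N < n by omega)
    have h2 := hN.trans hD h1
    rcases hn with hn | hn
    · rw [← hn] at h2
      exact LtD.irrefl h2
    · exact hn.asymm hD h2
  obtain ⟨n, hn, hmax⟩ := Int.exists_greatest_of_bdd (P := fun n => u = gn D ^ n * x ∨ LtD D (gn D ^ n * x) u)
    ⟨N, hb⟩ ⟨M, Or.inr hM⟩
  refine ⟨n, hn.imp_right fun h => ?_⟩
  have h3 : gn D * (gn D ^ n * x) = gn D ^ (n + 1) * x := by
    rw [← mul_assoc, ← zpow_one_add, add_comm]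
  rw [h3]
  have h4 : ¬ (u = gn D ^ (n + 1) * x ∨ LtD D (gn D ^ (n + 1) * x) u) := fun hh => by
    have := hmax _ hh
    omega
  push Not at h4
  have h5 : gn D ^ (n + 1) * x ∈ D := by
    rw [mul_mem_iff (pow_mem_stD hγ.mem _)]
    exact hx
  rcases ltD_trichotomy hD hu h5 with h6 | h6 | h6
  · obtain ⟨c, hc⟩ := hD.ne'
    have a1 := h.2.2.2 c hc
    have a2 := h6.2.2.2 c hc
    have a3 := (h.trans hD h6).2.2.2 c hc
    unfold Cyc at *
    grind
  · exact absurd h6 h4.1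
  · exact absurd h6 h4.2

/-- the successor -/
theorem gen_first {D : Set (F g)} (hD : WCut D) {x v : F g} (hx : x ∈ D)
    (hv : v ∉ D ∨ ∃ n : ℤ, v = gn D ^ n * x) (hne : v ≠ x) : v = gn D * x ∨ Cyc x (gn D * x) v := by
  have hγ := gn_spec hD
  rcases hv with hv | ⟨n, rfl⟩
  · exact Or.inr ((hγ.pos x hx).2.2.2 v hv)
  · obtain ⟨c, hc⟩ := hD.ne'
    have h1 := (hγ.pos x hx).2.2.2 c hc
    rcases lt_trichotomy n 1 with h | h | h
    · right
      rcases lt_trichotomy n 0 with h2 | h2 | h2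
      · have h3 := hγ.lt hD hx h2
        rw [zpow_zero, one_mul] at h3
        have h4 := h3.2.2.2 c hc
        have h5 := (h3.trans hD (hγ.pos x hx)).2.2.2 c hc
        unfold Cyc at *
        grind
      · subst h2
        exact absurd (by rw [zpow_zero, one_mul]) hne
      · omega
    · left
      rw [h, zpow_one]
    · right
      have h3 := hγ.lt hD hx h
      rw [zpow_one] at h3
      have h4 := h3.2.2.2 c hc
      have h5 := ((hγ.pos x hx).trans hD h3).2.2.2 c hc
      unfold Cyc at *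
      grind

/-- the predecessor -/
theorem gen_last {D : Set (F g)} (hD : WCut D) {x v : F g} (hx : x ∈ D)
    (hv : v ∉ D ∨ ∃ n : ℤ, v = gn D ^ n * x) (hne : v ≠ x) :
    v = (gn D)⁻¹ * x ∨ Cyc x v ((gn D)⁻¹ * x) := by
  have hγ := gn_spec hD
  have hx' : (gn D)⁻¹ * x ∈ D := by
    rw [mul_mem_iff ((stD D).inv_mem hγ.mem)]
    exact hx
  by_cases h0 : v = (gn D)⁻¹ * x
  · exact Or.inl h0
  right
  have hv' : v ∉ D ∨ ∃ n : ℤ, v = gn D ^ n * ((gn D)⁻¹ * x) := by
    refine hv.imp_right fun ⟨n, hn⟩ => ⟨n + 1, ?_⟩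
    rw [hn, ← mul_assoc, ← zpow_sub_one]
    congr 2
    ring
  have h1 := gen_first hD hx' hv' h0
  rw [mul_inv_cancel_left] at h1
  have h2 := h1.resolve_left hne
  unfold Cyc at *
  grind

end TorL
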